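import Pool.Agent.Lib.MP_ba7882_co.Mix

set_option autoImplicit false

namespace Pool.Agent.Results.MP_ba7882_co.EquitableGalvin

/-- The elements `x` of `I`, sitting at the vertices `s x`, are joined to `T` by pairwise
vertex-disjoint directed paths `P x 0, …, P x (n x)` of the digraph `D`. -/
def Linked {S V : Type} (D : V → V → Prop) (T : Set V) (s : S → V) (I : Set S) : Prop :=
  ∃ (n : S → ℕ) (P : S → ℕ → V),
    (∀ x ∈ I, P x 0 = s x ∧ P x (n x) ∈ T ∧ ∀ i < n x, D (P x i) (P x (i + 1))) ∧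
      ∀ x ∈ I, ∀ y ∈ I, ∀ i ≤ n x, ∀ j ≤ n y, P x i = P y j → x = y ∧ i = j

/-- `S` is a set of vertices of a finite digraph, and the independent sets of `M` are the subsets
of `S` that are linked to a fixed set `T` of vertices. -/
def IsGammoid {S : Type} (M : Matroid S) : Prop :=
  ∃ (V : Type) (_ : Finite V) (D : V → V → Prop) (T : Set V) (s : S → V),
    Function.Injective s ∧ ∀ I : Set S, M.Indep I ↔ Linked D T s I

/-- If `p` is skew-supermodular and the gammoid `M` is a union of `k` independent sets, then some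
list colouring shows at least `p X` colours on every set `X` and has independent colour classes. -/
theorem result (S : Type) [Fintype S] [DecidableEq S] (k : ℕ) (hk : 0 < k) (p : Finset S → ℤ)
    (hp : ∀ X Y : Finset S,
      p X + p Y ≤ p (X ∩ Y) + p (X ∪ Y) ∨ p X + p Y ≤ p (X \ Y) + p (Y \ X))
    (hb : ∀ X : Finset S, p X ≤ min (X.card : ℤ) (k : ℤ))
    (M : Matroid S) (hM : IsGammoid M) (c₀ : S → Fin k) (hc₀ : ∀ i : Fin k, M.Indep {x | c₀ x = i})
    (L : S → Finset ℕ) (hL : ∀ x : S, (L x).card = k) :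
    ∃ c : S → ℕ, (∀ x : S, c x ∈ L x) ∧ (∀ X : Finset S, p X ≤ ((X.image c).card : ℤ)) ∧
      ∀ i : ℕ, M.Indep {x | c x = i} := by
  obtain ⟨V, _, D, T, s, -, h⟩ := hM
  have := Fintype.ofFinite V
  obtain ⟨c, c1, c2, c3⟩ := Lib.MP_ba7882_co.skew_gammoid (D := D) (T := T) (s := s) hk
    (fun X Y _ _ _ => hp X Y) (fun X => (le_min_iff.1 (hb X)).1) (fun X => (le_min_iff.1 (hb X)).2)
    (fun i => (h _).1 (hc₀ i)) L fun x => (hL x).ge
  exact ⟨c, c1, c2, fun i => (h _).2 (c3 i)⟩

end Pool.Agent.Results.MP_ba7882_co.EquitableGalvin
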