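import Pool.Agent.Lib.MP_ba7882_co.Gam

set_option autoImplicit false

namespace Pool.Agent.Results.MP_ba7882_co.Gammoids

/-- The elements `x` of `I`, sitting at the vertices `s x`, are joined to `T` by pairwise
vertex-disjoint directed paths `P x 0, …, P x (n x)` of the digraph `D`. -/
def Linked {S V : Type} (D : V → V → Prop) (T : Set V) (s : S → V) (I : Set S) : Prop :=
  ∃ (n : S → ℕ) (P : S → ℕ → V),
    (∀ x ∈ I, P x 0 = s x ∧ P x (n x) ∈ T ∧ ∀ i < n x, D (P x i) (P x (i + 1))) ∧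
      ∀ x ∈ I, ∀ y ∈ I, ∀ i ≤ n x, ∀ j ≤ n y, P x i = P y j → x = y ∧ i = j

/-- `S` is a set of vertices of a finite digraph, and the independent sets of `M` are the subsets
of `S` that are linked to a fixed set `T` of vertices. -/
def IsGammoid {S : Type} (M : Matroid S) : Prop :=
  ∃ (V : Type) (_ : Finite V) (D : V → V → Prop) (T : Set V) (s : S → V),
    Function.Injective s ∧ ∀ I : Set S, M.Indep I ↔ Linked D T s I

/-- Two gammoids, each a union of `k` independent sets, can be coloured from any lists of size `k`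
with colour classes that are independent in both. -/
theorem result (S : Type) [Fintype S] (M₁ M₂ : Matroid S) (h₁ : IsGammoid M₁) (h₂ : IsGammoid M₂)
    (k : ℕ) (c₁ c₂ : S → Fin k) (hc₁ : ∀ i : Fin k, M₁.Indep {x | c₁ x = i})
    (hc₂ : ∀ i : Fin k, M₂.Indep {x | c₂ x = i}) (L : S → Finset ℕ) (hL : ∀ x : S, (L x).card = k) :
    ∃ c : S → ℕ, (∀ x : S, c x ∈ L x) ∧
      ∀ i : ℕ, M₁.Indep {x | c x = i} ∧ M₂.Indep {x | c x = i} := by
  classical
  rcases k.eq_zero_or_pos with rfl | hk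
  · have h : ∀ i : ℕ, {x : S | (0 : S → ℕ) x = i} = ∅ := fun i =>
      Set.eq_empty_of_forall_notMem fun x _ => (c₁ x).elim0
    exact ⟨0, fun x => (c₁ x).elim0, fun i => (h i).symm ▸ ⟨M₁.empty_indep, M₂.empty_indep⟩⟩
  obtain ⟨V, _, D, T, s, -, h⟩ := h₁
  obtain ⟨V', _, D', T', s', -, h'⟩ := h₂
  have := Fintype.ofFinite V
  have := Fintype.ofFinite V'
  obtain ⟨c, c1, c2⟩ := Lib.MP_ba7882_co.gammoids (D := D) (T := T) (s := s) (D' := D') (T' := T')
    (s' := s') hk (fun i => (h _).1 (hc₁ i)) (fun i => (h' _).1 (hc₂ i)) L fun x => (hL x).ge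
  exact ⟨c, c1, fun i => ⟨(h _).2 (c2 i).1, (h' _).2 (c2 i).2⟩⟩

end Pool.Agent.Results.MP_ba7882_co.Gammoids
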